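import Pool.Agent.Helper693.Tri.Final

set_option autoImplicit false

/-!
# Deterministic diagonal perturbations separating the eigenvalues of a tridiagonal matrix

There is a deterministic algorithm which, on input a Hermitian tridiagonal `n × n` matrix `A` (with
no bound on its norm) and `δ > 0`, outputs a real diagonal matrix `E` with `‖E‖ ≤ 1` and
`gap (A + δ E) ≥ δ / (2 ^ 11 n ^ 11)`, using `O(n ^ 3 log n)` operations on exact complex numbers.
In particular, for `0 < δ ≤ 1`, `gap (A + δ E) ≥ C (δ / n) ^ c` with `O(n ^ 3 log ^ c (n / δ))`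
operations.
-/

namespace Pool.Agent.Results.MP_26b317_lc.DeterministicGap

open Pool.Agent.TridiagGap
open scoped Matrix.Norms.L2Operator

theorem result :
    ∃ (f : ℕ × (ℂ × List (ℂ × ℂ × ℂ)) → List ℂ)
      (cost : ℕ × (ℂ × List (ℂ × ℂ × ℂ)) → ℕ) (C c K : ℝ),
      0 < C ∧ 0 < c ∧ 0 < K ∧ Computes f cost ∧
      ∀ (n : ℕ) (A : Matrix (Fin n) (Fin n) ℂ) (δ : ℝ),
        2 ≤ n → A.IsHermitian → IsTridiagonal A → 0 < δ →
        ∃ e : Fin n → ℝ,
          f (n, ((δ : ℂ), encode A)) = List.ofFn (fun j => (e j : ℂ)) ∧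
          ‖(Matrix.diagonal (fun j => (e j : ℂ)) : Matrix (Fin n) (Fin n) ℂ)‖ ≤ 1 ∧
          C * δ / (n : ℝ) ^ c ≤ gap (A + (δ : ℂ) • Matrix.diagonal (fun j => (e j : ℂ))) ∧
          (cost (n, ((δ : ℂ), encode A)) : ℝ) ≤ K * (n : ℝ) ^ 3 * Real.log n ∧
          (δ ≤ 1 →
            C * (δ / n) ^ c ≤ gap (A + (δ : ℂ) • Matrix.diagonal (fun j => (e j : ℂ))) ∧
            (cost (n, ((δ : ℂ), encode A)) : ℝ)
              ≤ K * (n : ℝ) ^ 3 * (Real.log (n / δ)) ^ c) := by
  obtain ⟨K, hK⟩ := cost_algo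
  refine ⟨algo, _, 1 / 2 ^ 11, 11, 1024 * (248 * (K + 1)), by positivity, by norm_num,
    by positivity, hK, ?_⟩
  intro n A δ hn hA hT hδ
  have ha := HT_entry A hA hT
  have hn1 : 1 ≤ n := by omega
  have hn' : (2 : ℝ) ≤ n := by exact_mod_cast hn
  obtain ⟨t, y, h1, h2, h3, h4, h5⟩ := search_spec (entry A) ha n hn1 δ hδ (els (entry A) 0 n)
    (fun t y hy => fz_eq (entry A) ha n t y hy)
  have habs : ∀ j : Fin n, |t / δ * ((j : ℝ) + 1)| ≤ 1 := by
    intro j
    have hj : ((j : ℕ) : ℝ) + 1 ≤ n := by exact_mod_cast j.2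
    rw [abs_of_nonneg (by positivity)]
    calc t / δ * ((j : ℝ) + 1) ≤ (δ / n) / δ * n := by gcongr
      _ = 1 := by field_simp
  have hherm : (blk (pert (entry A) t) 0 n).IsHermitian := by
    ext i j
    simp only [Matrix.conjTranspose_apply, blk, Matrix.of_apply]
    exact ((HT_pert (entry A) ha t).herm _ _).symm
  have hgap : δ / (2 ^ 11 * (n : ℝ) ^ 11) ≤ gap (A + (δ : ℂ) • Matrix.diagonal
      (fun j : Fin n => ((t / δ * ((j : ℝ) + 1) : ℝ) : ℂ))) := by
    rw [← blk_entry A t δ hδ]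
    exact h4.trans (le_gap hn _ hherm y fun i j hij =>
      gap_core (entry A) ha n t y h5 hherm i j hij)
  have hcost := cost_real K n hn
  have hlog2 : (1 / 2 : ℝ) ≤ Real.log 2 := by
    have := Real.log_two_gt_d9
    linarith
  have hlogn : Real.log 2 ≤ Real.log n := Real.log_le_log (by norm_num) hn'
  have hB : 0 ≤ 248 * ((K : ℝ) + 1) * (n : ℝ) ^ 3 := by positivity
  refine ⟨fun j => t / δ * ((j : ℝ) + 1), ?_, norm_diag _ habs, ?_, ?_, ?_⟩
  · unfold algo
    simp only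
    rw [encode_eq, h1, out_spec]
    congr 1
    funext j
    push_cast
    ring
  · have e : (1 / 2 ^ 11 : ℝ) * δ / (n : ℝ) ^ (11 : ℝ) = δ / (2 ^ 11 * (n : ℝ) ^ 11) := by
      rw [show (11 : ℝ) = ((11 : ℕ) : ℝ) by norm_num, Real.rpow_natCast]
      field_simp
    rw [e]
    exact hgap
  · refine hcost.trans ?_
    have : 0 ≤ Real.log n := by linarith
    nlinarith [mul_nonneg hB this]
  · intro hδ1
    constructor
    · have e : (1 / 2 ^ 11 : ℝ) * (δ / n) ^ (11 : ℝ) ≤ δ / (2 ^ 11 * (n : ℝ) ^ 11) := by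
        rw [show (11 : ℝ) = ((11 : ℕ) : ℝ) by norm_num, Real.rpow_natCast, div_pow,
          ← mul_div_assoc, div_le_div_iff₀ (by positivity) (by positivity)]
        have h6 : δ ^ 11 ≤ δ := by
          calc δ ^ 11 ≤ δ ^ 1 := pow_le_pow_of_le_one hδ.le hδ1 (by norm_num)
            _ = δ := pow_one δ
        have h7 : 0 < (n : ℝ) ^ 11 := by positivity
        nlinarith
      exact e.trans hgap
    · have hle : Real.log n ≤ Real.log (n / δ) := by
        apply Real.log_le_log (by positivity)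
        rw [le_div_iff₀ hδ]
        nlinarith
      set x := Real.log (n / δ) with hx
      have hx2 : 1 / 2 ≤ x := by linarith
      have hx10 : (1 / 1024 : ℝ) ≤ x ^ 10 := by
        calc (1 / 1024 : ℝ) = (1 / 2) ^ 10 := by norm_num
          _ ≤ x ^ 10 := by gcongr
      have hxx : x ≤ 1024 * x ^ 11 := by
        have : x ^ 11 = x * x ^ 10 := by ring
        rw [this]
        nlinarith
      rw [show (11 : ℝ) = ((11 : ℕ) : ℝ) by norm_num, Real.rpow_natCast]
      calc _ ≤ 248 * ((K : ℝ) + 1) * (n : ℝ) ^ 3 * Real.log n := hcost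
        _ ≤ 248 * ((K : ℝ) + 1) * (n : ℝ) ^ 3 * (1024 * x ^ 11) := by
            apply mul_le_mul_of_nonneg_left (hle.trans hxx) hB
        _ = 1024 * (248 * ((K : ℝ) + 1)) * (n : ℝ) ^ 3 * x ^ 11 := by ring

end Pool.Agent.Results.MP_26b317_lc.DeterministicGap
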